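import Pool.Agent.H290Z.Dim3.Link

set_option autoImplicit false

namespace Pool.Agent.H290Z.Dim3

variable {E J : Type}

/-- the finite vertex set -/
abbrev V (K : ℕ) (E J : Type) := (Fin (6 * K + 1) × E) ⊕ J

/-- embedding into the potential vertices -/
def emb {K : ℕ} (tm : J → ℕ) : V K E J → W E J
  | .inl u => .inl (u.1.val, u.2)
  | .inr j => .inr (tm j, j)

lemma emb_injective {K : ℕ} (tm : J → ℕ) : Function.Injective (emb (E := E) (K := K) tm) := by
  rintro (⟨i, e⟩ | j) (⟨i', e'⟩ | j') h <;> simp only [emb] at h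
  · simp only [Sum.inl.injEq, Prod.mk.injEq] at h ⊢
    exact ⟨Fin.ext h.1, h.2⟩
  · simp at h
  · simp at h
  · simp only [Sum.inr.injEq, Prod.mk.injEq] at h ⊢
    exact h.2

lemma lt_asymm' (lo hi : J → E) (u v : W E J) (h : lt lo hi u v) : ¬ lt lo hi v u := by
  rcases u with u | u <;> rcases v with v | v
  · simp only [lt] at *
    omega
  · exact h.elim
  · exact fun k => k
  · exact h.elim

/-- the comparability graph -/
def gr (K : ℕ) (lo hi : J → E) (tm : J → ℕ) : SimpleGraph (V K E J) where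
  Adj u v := lt lo hi (emb tm u) (emb tm v) ∨ lt lo hi (emb tm v) (emb tm u)
  symm := ⟨fun _ _ h => h.symm⟩
  loopless := ⟨fun u h => by
    rcases h with h | h <;> exact lt_asymm' lo hi _ _ h h⟩

variable {K : ℕ} {lo hi : J → E} {tm : J → ℕ}

lemma adj_ll (i j : Fin (6 * K + 1)) (e f : E) :
    (gr K lo hi tm).Adj (.inl (i, e)) (.inl (j, f)) ↔
      (e = f ∧ (j.val = i.val + 1 ∨ i.val = j.val + 1)) ∨ (j.val % 6 = 4 ∧ i.val + 4 < j.val) ∨
        (i.val % 6 = 4 ∧ j.val + 4 < i.val) := by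
  simp only [gr, emb, lt]
  by_cases h : e = f
  · subst h
    simp only [true_and]
    omega
  · simp [h, Ne.symm h]

lemma adj_rl (l : J) (j : Fin (6 * K + 1)) (f : E) :
    (gr K lo hi tm).Adj (.inr l) (.inl (j, f)) ↔
      (j.val = 6 * tm l ∧ (f = lo l ∨ f = hi l)) ∨ (j.val % 6 = 4 ∧ 6 * tm l < j.val) := by
  simp [gr, emb, lt]

lemma adj_rr (l l' : J) : ¬ (gr K lo hi tm).Adj (.inr l) (.inr l') := by
  simp [gr, emb, lt]

/-- at most one neighbour -/
def Leaf {α : Type} (X : SimpleGraph α) (v : α) : Prop := ∀ a b, X.Adj v a → X.Adj v b → a = b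

lemma Leaf.map {α : Type} {X : SimpleGraph α} (φ : X ≃g X) {v : α} (h : Leaf X v) :
    Leaf X (φ v) := by
  intro a b ha hb
  obtain ⟨a, rfl⟩ := φ.surjective a
  obtain ⟨b, rfl⟩ := φ.surjective b
  rw [h a b (φ.map_adj_iff.1 ha) (φ.map_adj_iff.1 hb)]

lemma leaf_last (htm : ∀ l, tm l < K) (e : E) :
    Leaf (gr K lo hi tm) (.inl (Fin.last (6 * K), e)) := by
  have key : ∀ a, (gr K lo hi tm).Adj (.inl (Fin.last (6 * K), e)) a →
      ∃ j : Fin (6 * K + 1), j.val + 1 = 6 * K ∧ a = .inl (j, e) := by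
    rintro (⟨j, f⟩ | l) h
    · rw [adj_ll] at h
      have := j.isLt
      simp only [Fin.val_last] at h
      rcases h with ⟨rfl, h⟩ | h | h
      · exact ⟨j, by omega, rfl⟩
      · omega
      · omega
    · rw [SimpleGraph.adj_comm, adj_rl] at h
      have := htm l
      simp only [Fin.val_last] at h
      omega
  intro a b ha hb
  obtain ⟨j, hj, rfl⟩ := key a ha
  obtain ⟨j', hj', rfl⟩ := key b hb
  rw [Fin.ext (show j.val = j'.val by omega)]

lemma of_leaf (hK : 2 ≤ K) (htm : ∀ l, tm l < K) (hlh : ∀ l, lo l ≠ hi l) (v : V K E J)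
    (h : Leaf (gr K lo hi tm) v) : ∃ e, v = .inl (Fin.last (6 * K), e) := by
  rcases v with ⟨i, e⟩ | l
  · by_cases hi6 : i.val = 6 * K
    · exact ⟨e, by rw [Fin.ext (show i.val = (Fin.last (6 * K)).val from hi6)]⟩
    · exfalso
      have hlt := i.isLt
      rcases Nat.eq_zero_or_pos i.val with h0 | h0
      · have := h (.inl (⟨1, by omega⟩, e)) (.inl (⟨10, by omega⟩, e))
          (by rw [adj_ll]; simp [h0]) (by rw [adj_ll]; simp [h0])
        simp at this
      · have := h (.inl (⟨i.val + 1, by omega⟩, e)) (.inl (⟨i.val - 1, by omega⟩, e))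
          (by rw [adj_ll]; simp) (by rw [adj_ll]; left; exact ⟨rfl, Or.inr (by simp only; omega)⟩)
        simp only [Sum.inl.injEq, Prod.mk.injEq, Fin.mk.injEq] at this
        omega
  · exfalso
    have h1 := htm l
    have := h (.inl (⟨6 * tm l, by omega⟩, lo l)) (.inl (⟨6 * tm l, by omega⟩, hi l))
      (by rw [adj_rl]; simp) (by rw [adj_rl]; simp)
    simp only [Sum.inl.injEq, Prod.mk.injEq, true_and] at this
    exact hlh l this

theorem aut_structure [Finite E] [Nontrivial E] (hK : 2 ≤ K) (htm : ∀ l, tm l < K)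
    (hlh : ∀ l, lo l ≠ hi l) (φ : gr K lo hi tm ≃g gr K lo hi tm) :
    ∃ π : E → E, Function.Injective π ∧ (∀ i e, φ (.inl (i, e)) = .inl (i, π e)) ∧
      ∀ l, ∃ l', φ (.inr l) = .inr l' ∧ tm l' = tm l ∧ (π (lo l) = lo l' ∨ π (lo l) = hi l') ∧
        (π (hi l) = lo l' ∨ π (hi l) = hi l') := by
  have h0 : ∀ e, ∃ f, φ (.inl (Fin.last (6 * K), e)) = .inl (Fin.last (6 * K), f) := fun e =>
    of_leaf hK htm hlh _ ((leaf_last htm e).map φ)
  choose π hπ using h0
  have hinj : Function.Injective π := by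
    intro e f h
    have : φ (.inl (Fin.last (6 * K), e)) = φ (.inl (Fin.last (6 * K), f)) := by
      rw [hπ, hπ, h]
    simpa using φ.injective this
  have hsurj : Function.Surjective π := Finite.injective_iff_surjective.1 hinj
  have key : ∀ m : ℕ, ∀ i : Fin (6 * K + 1), 6 * K ≤ i.val + m →
      ∀ e, φ (.inl (i, e)) = .inl (i, π e) := by
    intro m
    induction m with
    | zero =>
      intro i hi' e
      have := i.isLt
      rw [Fin.ext (show i.val = (Fin.last (6 * K)).val by simp only [Fin.val_last]; omega)]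
      exact hπ e
    | succ m ih =>
      intro i hi' e
      by_cases hi2 : 6 * K ≤ i.val + m
      · exact ih i hi2 e
      have hup : ∀ (k j : Fin (6 * K + 1)) (e f : E), k.val ≤ i.val → i.val < j.val →
          φ (.inl (k, e)) ≠ .inl (j, f) := by
        intro k j e f h1 h2 h3
        obtain ⟨f0, rfl⟩ := hsurj f
        rw [← ih j (by omega) f0] at h3
        have := φ.injective h3
        simp only [Sum.inl.injEq, Prod.mk.injEq] at this
        rw [this.1] at h1
        omega
      set i1 : Fin (6 * K + 1) := ⟨i.val + 1, by omega⟩ with hi1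
      have hi1v : i1.val = i.val + 1 := rfl
      have hadj : (gr K lo hi tm).Adj (φ (.inl (i, e))) (.inl (i1, π e)) := by
        rw [← ih i1 (by omega) e, φ.map_adj_iff, adj_ll]
        exact Or.inl ⟨rfl, Or.inl rfl⟩
      obtain ⟨f0, hf0⟩ := exists_ne e
      have hnadj : ¬ (gr K lo hi tm).Adj (φ (.inl (i, e))) (.inl (i1, π f0)) := by
        rw [← ih i1 (by omega) f0, φ.map_adj_iff, adj_ll]
        simp only [Ne.symm hf0, false_and, false_or]
        omega
      rcases hu : φ (.inl (i, e)) with ⟨j, f⟩ | l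
      · have hj : j.val ≤ i.val := by
          by_contra hj
          exact hup i j e f le_rfl (by omega) hu
        rw [hu, adj_ll] at hadj hnadj
        rcases hadj with ⟨rfl, h⟩ | h | h
        · rw [Fin.ext (show j.val = i.val by omega)]
        · exact (hnadj (Or.inr (Or.inl h))).elim
        · omega
      · exfalso
        rw [hu, adj_rl] at hadj hnadj
        rcases hadj with ⟨h, -⟩ | h
        · set i0 : Fin (6 * K + 1) := ⟨i.val - 1, by omega⟩ with hi0
          have hi0v : i0.val = i.val - 1 := rfl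
          have h1 : (gr K lo hi tm).Adj (φ (.inl (i, e))) (φ (.inl (i0, e))) := by
            rw [φ.map_adj_iff, adj_ll]
            exact Or.inl ⟨rfl, Or.inr (by omega)⟩
          rw [hu] at h1
          rcases hw : φ (.inl (i0, e)) with ⟨j, f⟩ | l'
          · rw [hw, adj_rl] at h1
            exact hup i0 j e f (by omega) (by omega) hw
          · rw [hw] at h1
            exact adj_rr _ _ h1
        · exact hnadj (Or.inr h)
  have hall : ∀ i e, φ (.inl (i, e)) = .inl (i, π e) := fun i e => key (6 * K) i (by omega) e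
  refine ⟨π, hinj, hall, fun l => ?_⟩
  rcases hu : φ (.inr l) with ⟨j, f⟩ | l'
  · obtain ⟨f0, rfl⟩ := hsurj f
    rw [← hall] at hu
    simpa using φ.injective hu
  · have h1 := htm l
    have a1 : (gr K lo hi tm).Adj (φ (.inr l)) (φ (.inl (⟨6 * tm l, by omega⟩, lo l))) := by
      rw [φ.map_adj_iff, adj_rl]; simp
    have a2 : (gr K lo hi tm).Adj (φ (.inr l)) (φ (.inl (⟨6 * tm l, by omega⟩, hi l))) := by
      rw [φ.map_adj_iff, adj_rl]; simp
    rw [hu, hall, adj_rl] at a1 a2
    simp only at a1 a2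
    refine ⟨l', rfl, by omega, ?_, ?_⟩
    · rcases a1 with a1 | a1
      · exact a1.2
      · omega
    · rcases a2 with a2 | a2
      · exact a2.2
      · omega

/-- three linear orders from three integer coordinates -/
theorem exists_orders {α : Type} (r : α → α → Prop) (hr : ∀ u v, r u v → ¬ r v u)
    (x y z : α → ℤ) (h : ∀ u v, u ≠ v → (r u v ↔ x u ≤ x v ∧ y u ≤ y v ∧ z u ≤ z v)) :
    ∃ (P : PartialOrder α) (L : Fin 3 → LinearOrder α),
      (∀ u v, P.lt u v ↔ r u v) ∧ ∀ u v, P.le u v ↔ ∀ i, (L i).le u v := by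
  have hinj : ∀ u v, x u = x v → y u = y v → z u = z v → u = v := by
    intro u v h1 h2 h3
    by_contra hne
    exact hr u v ((h u v hne).2 (by omega)) ((h v u (Ne.symm hne)).2 (by omega))
  let P : PartialOrder α := PartialOrder.lift (fun u => (x u, y u, z u)) (by
    intro u v k
    simp only [Prod.mk.injEq] at k
    exact hinj u v k.1 k.2.1 k.2.2)
  let L1 : LinearOrder α := LinearOrder.lift'
    (fun u => (toLex (x u, toLex (y u, z u)) : ℤ ×ₗ ℤ ×ₗ ℤ)) (by
    intro u v k
    simp only [EmbeddingLike.apply_eq_iff_eq, Prod.mk.injEq] at k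
    exact hinj u v k.1 k.2.1 k.2.2)
  let L2 : LinearOrder α := LinearOrder.lift'
    (fun u => (toLex (y u, toLex (z u, x u)) : ℤ ×ₗ ℤ ×ₗ ℤ)) (by
    intro u v k
    simp only [EmbeddingLike.apply_eq_iff_eq, Prod.mk.injEq] at k
    exact hinj u v k.2.2 k.1 k.2.1)
  let L3 : LinearOrder α := LinearOrder.lift'
    (fun u => (toLex (z u, toLex (x u, y u)) : ℤ ×ₗ ℤ ×ₗ ℤ)) (by
    intro u v k
    simp only [EmbeddingLike.apply_eq_iff_eq, Prod.mk.injEq] at k
    exact hinj u v k.2.1 k.2.2 k.1)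
  have hP : ∀ u v, P.le u v ↔ x u ≤ x v ∧ y u ≤ y v ∧ z u ≤ z v := fun u v => Iff.rfl
  refine ⟨P, ![L1, L2, L3], fun u v => ?_, fun u v => ?_⟩
  · rw [P.lt_iff_le_not_ge, hP, hP]
    by_cases huv : u = v
    · subst huv
      exact iff_of_false (by omega) (fun k => hr u u k k)
    · rw [← h u v huv, ← h v u (Ne.symm huv)]
      exact ⟨fun k => k.1, fun k => ⟨k, hr u v k⟩⟩
  · rw [hP, Fin.forall_fin_succ, Fin.forall_fin_succ, Fin.forall_fin_one]
    change _ ↔ (toLex (x u, toLex (y u, z u)) : ℤ ×ₗ ℤ ×ₗ ℤ) ≤ toLex (x v, toLex (y v, z v)) ∧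
      (toLex (y u, toLex (z u, x u)) : ℤ ×ₗ ℤ ×ₗ ℤ) ≤ toLex (y v, toLex (z v, x v)) ∧
      (toLex (z u, toLex (x u, y u)) : ℤ ×ₗ ℤ ×ₗ ℤ) ≤ toLex (z v, toLex (x v, y v))
    simp only [Prod.Lex.toLex_le_toLex]
    omega

end Pool.Agent.H290Z.Dim3
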