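import Pool.Agent.H290Z.Dim3.Graph

set_option autoImplicit false

namespace Pool.Agent.H290Z.Dim3

variable {G : Type} [Group G]

/-- first strand of a link -/
def glo (j : Option G × G) : G × Fin 3 := (j.2, 0)

/-- second strand of a link -/
def ghi : Option G × G → G × Fin 3
  | (some s, g) => (g * s, 1)
  | (none, g) => (g, 2)

/-- left multiplication on the vertices -/
def act (K : ℕ) (a : G) : V K (G × Fin 3) (Option G × G) → V K (G × Fin 3) (Option G × G)
  | .inl u => .inl (u.1, (a * u.2.1, u.2.2))
  | .inr j => .inr (j.1, a * j.2)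

lemma act_mul (K : ℕ) (a b : G) (v : V K (G × Fin 3) (Option G × G)) :
    act K (a * b) v = act K a (act K b v) := by
  rcases v with u | j <;> simp [act, mul_assoc]

lemma act_one (K : ℕ) (v : V K (G × Fin 3) (Option G × G)) : act K 1 v = v := by
  rcases v with u | j <;> simp [act]

lemma act_adj (K : ℕ) (τ : Option G → ℕ) (a : G) (u v : V K (G × Fin 3) (Option G × G)) :
    (gr K glo ghi (fun j => τ j.1)).Adj (act K a u) (act K a v) ↔
      (gr K glo ghi (fun j => τ j.1)).Adj u v := by
  have key : ∀ (l : Option G × G) (w : Fin (6 * K + 1) × (G × Fin 3)),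
      (gr K glo ghi (fun j => τ j.1)).Adj (act K a (.inr l)) (act K a (.inl w)) ↔
      (gr K glo ghi (fun j => τ j.1)).Adj (.inr l) (.inl w) := by
    rintro ⟨o, g⟩ ⟨i, h, k⟩
    simp only [act, adj_rl]
    rcases o with _ | s <;> simp [glo, ghi, mul_assoc]
  rcases u with ⟨i, g, k⟩ | l <;> rcases v with ⟨i', g', k'⟩ | l'
  · simp [act, adj_ll]
  · rw [SimpleGraph.adj_comm, key, SimpleGraph.adj_comm]
  · exact key _ _
  · simp [act, adj_rr]

/-- the action as a homomorphism to the automorphism group -/
def actHom (K : ℕ) (τ : Option G → ℕ) :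
    G →* (gr K glo ghi (fun j : Option G × G => τ j.1) ≃g
      gr K glo ghi (fun j : Option G × G => τ j.1)) where
  toFun a :=
    { toFun := act K a
      invFun := act K a⁻¹
      left_inv := fun v => by rw [← act_mul, inv_mul_cancel, act_one]
      right_inv := fun v => by rw [← act_mul, mul_inv_cancel, act_one]
      map_rel_iff' := fun {u v} => act_adj K τ a u v }
  map_one' := by
    ext v
    exact act_one K v
  map_mul' a b := by
    ext v
    exact act_mul K a b v

lemma actHom_bijective [Finite G] (K : ℕ) (τ : Option G → ℕ) (hK : 2 ≤ K)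
    (hτ : Function.Injective τ) (hτK : ∀ o, τ o < K) : Function.Bijective (actHom K τ) := by
  constructor
  · intro a b h
    have : act K a (.inr (none, 1)) = act K b (.inr (none, 1)) :=
      congrArg (fun φ : gr K glo ghi (fun j : Option G × G => τ j.1) ≃g
        gr K glo ghi (fun j : Option G × G => τ j.1) => φ (.inr (none, 1))) h
    simpa [act] using this
  · intro φ
    have hlh : ∀ l : Option G × G, glo l ≠ ghi l := by
      rintro ⟨_ | s, g⟩ <;> simp [glo, ghi]
    obtain ⟨π, hinj, h1, h2⟩ := aut_structure hK (fun l => hτK l.1) hlh φ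
    have h3 : ∀ o g, ∃ g', φ (.inr (o, g)) = .inr (o, g') ∧
        (π (g, 0) = (g', 0) ∨ π (g, 0) = ghi (o, g')) ∧
        (π (ghi (o, g)) = (g', 0) ∨ π (ghi (o, g)) = ghi (o, g')) := by
      intro o g
      obtain ⟨⟨o', g'⟩, k1, k2, k3, k4⟩ := h2 (o, g)
      have : o' = o := hτ k2
      subst this
      exact ⟨g', k1, k3, k4⟩
    have h4 : ∀ g, (π (g, 0)).2 = 0 := by
      intro g
      obtain ⟨g1, -, k1, -⟩ := h3 none g
      obtain ⟨g2, -, k2, -⟩ := h3 (some 1) g
      rcases k1 with k1 | k1
      · rw [k1]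
      · rcases k2 with k2 | k2
        · rw [k2]
        · rw [k1] at k2
          simp [ghi] at k2
    have h5 : ∀ o g, φ (.inr (o, g)) = .inr (o, (π (g, 0)).1) ∧
        π (ghi (o, g)) = ghi (o, (π (g, 0)).1) := by
      intro o g
      obtain ⟨g', k1, k2, k3⟩ := h3 o g
      have k4 : π (g, 0) = (g', 0) := by
        rcases k2 with k2 | k2
        · exact k2
        · have := h4 g
          rw [k2] at this
          rcases o with _ | s <;> simp [ghi] at this
      rw [k4]
      refine ⟨k1, k3.resolve_left fun k => ?_⟩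
      exact hlh (o, g) (hinj (k4.trans k.symm))
    set a := (π (1, 0)).1 with ha
    have h6 : ∀ h, π (h, 1) = (a * h, 1) := by
      intro h
      have := (h5 (some h) 1).2
      simpa [ghi] using this
    have h7 : ∀ g, (π (g, 0)).1 = a * g := by
      intro g
      have := (h5 (some 1) g).2
      simp only [ghi, mul_one, h6, Prod.mk.injEq, and_true] at this
      exact this.symm
    have h8 : ∀ g k, π (g, k) = (a * g, k) := by
      intro g k
      fin_cases k
      · exact Prod.ext (h7 g) (h4 g)
      · exact h6 g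
      · have := (h5 none g).2
        rw [h7] at this
        exact this
    refine ⟨a, ?_⟩
    ext v
    change act K a v = φ v
    rcases v with ⟨i, g, k⟩ | ⟨o, g⟩
    · rw [h1, h8]; rfl
    · rw [(h5 o g).1, h7]; rfl

theorem main (G : Type) [Group G] [Finite G] :
    ∃ (α : Type) (_ : Finite α) (X : SimpleGraph α) (P : PartialOrder α)
      (L : Fin 3 → LinearOrder α), (∀ u v, X.Adj u v ↔ P.lt u v ∨ P.lt v u) ∧
      (∀ u v, P.le u v ↔ ∀ i, (L i).le u v) ∧ Nonempty (G ≃* (X ≃g X)) := by
  obtain ⟨n, ⟨ix⟩⟩ := Finite.exists_equiv_fin G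
  let idx : G → ℤ := fun g => (ix g).val
  have hidx : Function.Injective idx := by
    intro g h k
    exact ix.injective (Fin.ext (by simpa [idx] using k))
  let q : Option G → G × Fin 3 → ℤ := fun o e =>
    match o with
    | some s => if e.2 = 1 then 3 * idx (e.1 * s⁻¹) + 1 else 3 * idx e.1 + e.2.val
    | none => 3 * idx e.1 + (if e.2 = 0 then 0 else 3 - (e.2.val : ℤ))
  have hq : ∀ o, Function.Injective (q o) := by
    rintro (_ | s) ⟨g, k⟩ ⟨g', k'⟩ h
    · fin_cases k <;> fin_cases k' <;> simp [q] at h ⊢ <;>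
        first | exact hidx h | omega
    · fin_cases k <;> fin_cases k' <;> simp [q] at h ⊢ <;>
        first | exact hidx h | exact mul_right_cancel (hidx h) | omega
  obtain ⟨K, τ, x, y, z, hK, hτ, hτK, h⟩ := exists_rep (glo (G := G)) ghi Prod.fst q hq
    (by rintro ⟨_ | s, g⟩ <;> simp [q, glo, ghi])
    (by
      rintro ⟨o, g⟩ ⟨o', g'⟩ k1 k2
      simp only [glo, Prod.mk.injEq, and_true] at k1 k2 ⊢
      exact ⟨k1, k2⟩) (q none) (hq none)
  let tm : Option G × G → ℕ := fun j => τ j.1
  have hval : ∀ u : V K (G × Fin 3) (Option G × G),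
      Valid K {l | l.1 = τ (Prod.fst l.2)} (emb tm u) := by
    rintro (⟨i, e⟩ | j)
    · have := i.isLt
      simp only [emb, Valid]
      omega
    · rfl
  obtain ⟨P, L, hP, hL⟩ := exists_orders
    (fun u v : V K (G × Fin 3) (Option G × G) => lt glo ghi (emb tm u) (emb tm v))
    (fun u v => lt_asymm' _ _ _ _) (fun u => x (emb tm u)) (fun u => y (emb tm u))
    (fun u => z (emb tm u))
    (fun u v huv => h _ _ (hval u) (hval v) (fun k => huv (emb_injective tm k)))
  refine ⟨V K (G × Fin 3) (Option G × G), inferInstance, gr K glo ghi tm, P, L, fun u v => ?_, hL,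
    ⟨MulEquiv.ofBijective _ (actHom_bijective K τ hK hτ hτK)⟩⟩
  rw [hP, hP]
  rfl

end Pool.Agent.H290Z.Dim3
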