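import Pool.Agent.H290Z.Dim3.Step

set_option autoImplicit false

namespace Pool.Agent.H290Z.Dim3

variable {E J : Type}

/-- coordinates after adding the links of time `K` -/
def addl (K : ℕ) (x : W E J → ℤ) (t : J → ℤ) : W E J → ℤ
  | .inl u => x (.inl u)
  | .inr l => if l.1 = K then t l.2 else x (.inr l)

lemma addl_old {K : ℕ} {L : Set (ℕ × J)} (hL : ∀ l ∈ L, l.1 < K) (x : W E J → ℤ) (t : J → ℤ)
    {u : W E J} (hu : Old K L u) : addl K x t u = x u := by
  rcases u with u | l
  · rfl
  · exact if_neg (hL l hu).ne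

lemma addl_new (K : ℕ) (x : W E J → ℤ) (t : J → ℤ) (j : J) :
    addl K x t (.inr (K, j)) = t j := by
  simp [addl]

lemma addl_inl (K : ℕ) (x : W E J → ℤ) (t : J → ℤ) (u : ℕ × E) :
    addl K x t (.inl u) = x (.inl u) := rfl

theorem Good.link {lo hi : J → E} {K : ℕ} {L : Set (ℕ × J)} {p : E → ℤ}
    (h : Good lo hi K L (fun _ => 2) p) (hinj : Function.Injective p) (hL : ∀ l ∈ L, l.1 < K)
    (C : Set J) (hC : ∀ j ∈ C, p (hi j) = p (lo j) + 1)
    (hC' : ∀ j ∈ C, ∀ j' ∈ C, lo j = lo j' → j = j') :
    Good lo hi K (L ∪ {l | l.1 = K ∧ l.2 ∈ C}) (fun _ => 2) p := by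
  obtain ⟨x, y, z, M, h⟩ := h
  have hord : ∀ e f, p e < p f → z (.inl (6 * K, e)) < z (.inl (6 * K, f)) ∧
      x (.inl (6 * K, f)) < x (.inl (6 * K, e)) := fun e f k => (h.ord e f rfl k).2.1 rfl
  have hx : ∀ e f, x (.inl (6 * K, e)) ≤ x (.inl (6 * K, f)) ↔ p f ≤ p e := by
    intro e f
    rcases lt_trichotomy (p e) (p f) with k | k | k
    · have := hord e f k; omega
    · rw [hinj k]; simp
    · have := hord f e k; omega
  have hz : ∀ e f, z (.inl (6 * K, e)) ≤ z (.inl (6 * K, f)) ↔ p e ≤ p f := by
    intro e f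
    rcases lt_trichotomy (p e) (p f) with k | k | k
    · have := hord e f k; omega
    · rw [hinj k]; simp
    · have := hord f e k; omega
  have hcase : ∀ u : W E J, Old K (L ∪ {l | l.1 = K ∧ l.2 ∈ C}) u →
      Old K L u ∨ ∃ j ∈ C, u = .inr (K, j) := by
    rintro (u | ⟨t, j⟩) hu
    · exact Or.inl hu
    · rcases hu with hu | ⟨h1, h2⟩
      · exact Or.inl hu
      · simp only at h1 h2
        subst h1
        exact Or.inr ⟨j, h2, rfl⟩
  have hot : ∀ u e, Old K L u → (lt lo hi u (.inl (6 * K, e)) ↔
      x u ≤ x (.inl (6 * K, e)) ∧ z u ≤ z (.inl (6 * K, e))) := by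
    intro u e hu
    simpa using h.ot u e hu
  refine ⟨addl K x (fun j => x (.inl (6 * K, hi j))), addl K y (fun _ => M),
    addl K z (fun j => z (.inl (6 * K, lo j))), M + 1, ?_, ?_, ?_, ?_, ?_, ?_⟩
  · rintro l (hl | hl)
    · exact h.time l hl
    · exact hl.1.le
  · intro u hu
    rcases hcase u hu with hu | ⟨j, hj, rfl⟩
    · rw [addl_old hL _ _ hu, addl_old hL _ _ hu, addl_old hL _ _ hu]
      have := h.bdo u hu
      omega
    · rw [addl_new, addl_new, addl_new]
      have := h.bdt (hi j)
      have := h.bdt (lo j)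
      omega
  · intro e
    simp only [addl_inl]
    have := h.bdt e
    omega
  · intro u v hu hv huv
    rcases hcase u hu with hu | ⟨j, hj, rfl⟩ <;> rcases hcase v hv with hv | ⟨j', hj', rfl⟩
    · rw [addl_old hL _ _ hu, addl_old hL _ _ hu, addl_old hL _ _ hu, addl_old hL _ _ hv,
        addl_old hL _ _ hv, addl_old hL _ _ hv]
      exact h.oo u v hu hv huv
    · rw [addl_old hL _ _ hu, addl_old hL _ _ hu, addl_old hL _ _ hu, addl_new, addl_new,
        addl_new]
      refine iff_of_false (by rcases u with u | u <;> simp [lt]) ?_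
      rintro ⟨k1, -, k3⟩
      have e1 := hC j' hj'
      have k4 := (hx (hi j') (lo j')).2 (by omega)
      have k5 := (hz (lo j') (hi j')).2 (by omega)
      have l1 := (hot u (lo j') hu).2 ⟨k1.trans k4, k3⟩
      have l2 := (hot u (hi j') hu).2 ⟨k1, k3.trans k5⟩
      rcases u with ⟨i, e⟩ | l
      · simp only [lt] at l1 l2
        have m1 : e = lo j' := by
          rcases l1 with l1 | l1
          · exact l1.1
          · omega
        have m2 : e = hi j' := by
          rcases l2 with l2 | l2
          · exact l2.1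
          · omega
        rw [← m1, ← m2] at e1
        omega
      · have := hL l hu
        simp only [lt] at l1
        omega
    · rw [addl_old hL _ _ hv, addl_old hL _ _ hv, addl_old hL _ _ hv, addl_new, addl_new,
        addl_new]
      have := h.bdo v hv
      refine iff_of_false ?_ (by omega)
      rcases v with ⟨i, f⟩ | l
      · simp only [Old] at hv
        simp only [lt]
        omega
      · simp [lt]
    · simp only [addl_new]
      refine iff_of_false (by simp [lt]) ?_
      rintro ⟨k1, -, k3⟩
      rw [hx] at k1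
      rw [hz] at k3
      have e1 := hC j hj
      have e2 := hC j' hj'
      have : lo j = lo j' := hinj (by omega)
      exact huv (by rw [hC' j hj j' hj' this])
  · intro u e hu
    simp only [addl_inl]
    rcases hcase u hu with hu | ⟨j, hj, rfl⟩
    · rw [addl_old hL _ _ hu, addl_old hL _ _ hu, addl_old hL _ _ hu]
      exact h.ot u e hu
    · simp only [addl_new, lt, hx, hz]
      have e1 := hC j hj
      constructor
      · rintro (⟨-, k | k⟩ | k)
        · subst k; omega
        · subst k; omega
        · omega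
      · rintro ⟨k1, -, k3⟩
        have k1 := k1 (by omega)
        have k3 := k3 (by omega)
        refine Or.inl ⟨trivial, ?_⟩
        rcases (show p e = p (lo j) ∨ p e = p (hi j) by omega) with k | k
        · exact Or.inl (hinj k)
        · exact Or.inr (hinj k)
  · intro e f k1 k2
    exact h.ord e f k1 k2

/-- vertices present at time `K` -/
def Valid (K : ℕ) (L : Set (ℕ × J)) : W E J → Prop
  | .inl u => u.1 ≤ 6 * K
  | .inr l => l ∈ L

theorem Good.final {lo hi : J → E} {K : ℕ} {L : Set (ℕ × J)} {p : E → ℤ}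
    (h : Good lo hi K L (fun _ => 2) p) (hinj : Function.Injective p) :
    ∃ x y z : W E J → ℤ, ∀ u v, Valid K L u → Valid K L v → u ≠ v →
      (lt lo hi u v ↔ x u ≤ x v ∧ y u ≤ y v ∧ z u ≤ z v) := by
  obtain ⟨x, y, z, M, h⟩ := h
  have hcase : ∀ u : W E J, Valid K L u → Old K L u ∨ ∃ e, u = .inl (6 * K + 0, e) := by
    rintro (⟨i, e⟩ | l) hu
    · by_cases k : i < 6 * K
      · exact Or.inl k
      · refine Or.inr ⟨e, ?_⟩
        simp only [Valid] at hu
        congr 2
        omega
    · exact Or.inl hu
  refine ⟨x, ext K y (fun _ _ => M), z, fun u v hu hv huv => ?_⟩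
  rcases hcase u hu with hu | ⟨e, rfl⟩ <;> rcases hcase v hv with hv | ⟨f, rfl⟩
  · rw [ext_old _ _ hu, ext_old _ _ hv]
    exact h.oo u v hu hv huv
  · rw [ext_old _ _ hu, ext_new]
    have h1 := h.ot u f hu
    have h2 := h.bdo u hu
    simp only [add_zero]
    rw [h1]
    simp only [ne_eq, not_true_eq_false, false_implies, true_and]
    omega
  · rw [ext_old _ _ hv, ext_new]
    have h2 := h.bdo v hv
    refine iff_of_false ?_ (by omega)
    rcases v with ⟨i, f⟩ | l
    · simp only [Old] at hv
      simp only [lt]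
      omega
    · simp [lt]
  · have hef : e ≠ f := fun k => huv (by rw [k])
    simp only [add_zero]
    refine iff_of_false (by simp only [lt]; omega) ?_
    rcases lt_or_gt_of_ne (fun k => hef (hinj k)) with k | k
    · have := (h.ord e f rfl k).2.1 rfl
      omega
    · have := (h.ord f e rfl k).2.1 rfl
      omega

/-- All colour classes of links can be attached, at pairwise different times. -/
theorem exists_rep [Finite E] {O : Type} [Finite O] (lo hi : J → E) (col : J → O)
    (q : O → E → ℤ) (hq : ∀ o, Function.Injective (q o))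
    (hadj : ∀ j, q (col j) (hi j) = q (col j) (lo j) + 1)
    (hlo : ∀ j j', col j = col j' → lo j = lo j' → j = j') (p0 : E → ℤ)
    (hp0 : Function.Injective p0) :
    ∃ (K : ℕ) (τ : O → ℕ) (x y z : W E J → ℤ), 2 ≤ K ∧ Function.Injective τ ∧ (∀ o, τ o < K) ∧
      ∀ u v, Valid K {l | l.1 = τ (col l.2)} u → Valid K {l | l.1 = τ (col l.2)} v → u ≠ v →
      (lt lo hi u v ↔ x u ≤ x v ∧ y u ≤ y v ∧ z u ≤ z v) := by
  classical
  have := Fintype.ofFinite O
  have key : ∀ s : Finset O, ∃ (K : ℕ) (τ : O → ℕ) (p : E → ℤ), Function.Injective p ∧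
      (∀ o ∈ s, ∀ o' ∈ s, τ o = τ o' → o = o') ∧ (∀ o ∈ s, τ o ≤ K) ∧
      Good lo hi K {l | col l.2 ∈ s ∧ l.1 = τ (col l.2)} (fun _ => 2) p := by
    intro s
    induction s using Finset.induction_on with
    | empty =>
      refine ⟨0, fun _ => 0, p0, hp0, by simp, by simp, ?_⟩
      simpa using good_zero lo hi p0
    | insert a s has ih =>
      obtain ⟨K, τ, p, hp, hτ, hK, hg⟩ := ih
      obtain ⟨K', hK', hg'⟩ := hg.reach hp (q a) (hq a)
      have hg2 := hg'.link (hq a) (fun l hl => by
        have := hK _ hl.1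
        have := hl.2
        omega) {j | col j = a} (fun j hj => by
          have hj' : col j = a := hj
          rw [← hj']; exact hadj j)
        (fun j hj j' hj' k => hlo j j' (hj.trans hj'.symm) k)
      have hup : ∀ o ∈ s, Function.update τ a K' o = τ o := fun o ho =>
        Function.update_of_ne (fun k : o = a => has (k ▸ ho)) _ _
      have hupa : Function.update τ a K' a = K' := Function.update_self _ _ _
      refine ⟨K', Function.update τ a K', q a, hq a, ?_, ?_, ?_⟩
      · intro o ho o' ho' k
        rw [Finset.mem_insert] at ho ho'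
        rcases ho with rfl | ho <;> rcases ho' with rfl | ho'
        · rfl
        · rw [hupa, hup o' ho'] at k; have := hK o' ho'; omega
        · rw [hupa, hup o ho] at k; have := hK o ho; omega
        · rw [hup o ho, hup o' ho'] at k; exact hτ o ho o' ho' k
      · intro o ho
        rw [Finset.mem_insert] at ho
        rcases ho with rfl | ho
        · rw [hupa]
        · rw [hup o ho]; have := hK o ho; omega
      · convert hg2 using 1
        ext l
        simp only [Finset.mem_insert, Set.mem_ofPred_eq, Set.mem_union]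
        constructor
        · rintro ⟨k | k, k'⟩
          · rw [k, hupa] at k'
            exact Or.inr ⟨k', k⟩
          · rw [hup _ k] at k'
            exact Or.inl ⟨k, k'⟩
        · rintro (⟨k, k'⟩ | ⟨k, k'⟩)
          · exact ⟨Or.inr k, by rw [hup _ k]; exact k'⟩
          · exact ⟨Or.inl k', by rw [k', hupa]; exact k⟩
  obtain ⟨K, τ, p, hp, hτ, hK, hg⟩ := key Finset.univ
  obtain ⟨K1, hK1, hg1⟩ := hg.reach hp p hp
  obtain ⟨K2, hK2, hg2⟩ := hg1.reach hp p hp
  obtain ⟨x, y, z, h⟩ := hg2.final hp
  refine ⟨K2, τ, x, y, z, by omega,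
    fun o o' k => hτ o (Finset.mem_univ _) o' (Finset.mem_univ _) k,
    fun o => by have := hK o (Finset.mem_univ _); omega, ?_⟩
  simpa using h

end Pool.Agent.H290Z.Dim3
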