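import Pool.Agent.H290Z.Dim3.Table

set_option autoImplicit false

namespace Pool.Agent.H290Z.Dim3

variable {E J : Type}

/-- all potential vertices: points of strands and timed links -/
abbrev W (E J : Type) := (ℕ × E) ⊕ (ℕ × J)

/-- the strict order -/
def lt (lo hi : J → E) : W E J → W E J → Prop
  | .inl u, .inl v => (u.2 = v.2 ∧ u.1 % 2 = 1 ∧ (v.1 = u.1 + 1 ∨ u.1 = v.1 + 1)) ∨
      (v.1 % 6 = 4 ∧ u.1 + 4 < v.1)
  | .inr l, .inl v => (v.1 = 6 * l.1 ∧ (v.2 = lo l.2 ∨ v.2 = hi l.2)) ∨
      (v.1 % 6 = 4 ∧ 6 * l.1 < v.1)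
  | _, .inr _ => False

/-- vertices present at time `K`, apart from the last layer -/
def Old (K : ℕ) (L : Set (ℕ × J)) : W E J → Prop
  | .inl u => u.1 < 6 * K
  | .inr l => l ∈ L

/-- the invariant: a representation in three dimensions whose last layer is extendable -/
structure Rep (lo hi : J → E) (K : ℕ) (L : Set (ℕ × J)) (c : E → ℕ) (p : E → ℤ)
    (x y z : W E J → ℤ) (M : ℤ) : Prop where
  time : ∀ l ∈ L, l.1 ≤ K
  bdo : ∀ u, Old K L u → (-M < x u ∧ x u < M) ∧ (-M < y u ∧ y u < M) ∧ (-M < z u ∧ z u < M)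
  bdt : ∀ e, (-M < x (.inl (6 * K, e)) ∧ x (.inl (6 * K, e)) < M) ∧
    (-M < y (.inl (6 * K, e)) ∧ y (.inl (6 * K, e)) < M) ∧
    (-M < z (.inl (6 * K, e)) ∧ z (.inl (6 * K, e)) < M)
  oo : ∀ u v, Old K L u → Old K L v → u ≠ v →
    (lt lo hi u v ↔ x u ≤ x v ∧ y u ≤ y v ∧ z u ≤ z v)
  ot : ∀ u e, Old K L u → (lt lo hi u (.inl (6 * K, e)) ↔
    (c e ≠ 1 → x u ≤ x (.inl (6 * K, e))) ∧ (c e ≠ 2 → y u ≤ y (.inl (6 * K, e))) ∧
    (c e ≠ 3 → z u ≤ z (.inl (6 * K, e))))
  ord : ∀ e f, c e = c f → p e < p f →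
    (c e = 1 → y (.inl (6 * K, e)) < y (.inl (6 * K, f)) ∧
      z (.inl (6 * K, f)) < z (.inl (6 * K, e))) ∧
    (c e = 2 → z (.inl (6 * K, e)) < z (.inl (6 * K, f)) ∧
      x (.inl (6 * K, f)) < x (.inl (6 * K, e))) ∧
    (c e = 3 → x (.inl (6 * K, e)) < x (.inl (6 * K, f)) ∧
      y (.inl (6 * K, f)) < y (.inl (6 * K, e)))

/-- existence of a representation -/
def Good (lo hi : J → E) (K : ℕ) (L : Set (ℕ × J)) (c : E → ℕ) (p : E → ℤ) : Prop :=
  ∃ (x y z : W E J → ℤ) (M : ℤ), Rep lo hi K L c p x y z M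

theorem Good.repos {lo hi : J → E} {K : ℕ} {L : Set (ℕ × J)} {c : E → ℕ} {p : E → ℤ}
    (h : Good lo hi K L c p) (q : E → ℤ) (hq : ∀ e f, c e = c f → q e < q f → p e < p f) :
    Good lo hi K L c q := by
  obtain ⟨x, y, z, M, h⟩ := h
  exact ⟨x, y, z, M, h.time, h.bdo, h.bdt, h.oo, h.ot,
    fun e f h1 h2 => h.ord e f h1 (hq e f h1 h2)⟩

/-- gluing old coordinates with the table of a new stage -/
def ext (K : ℕ) (x : W E J → ℤ) (t : ℕ → E → ℤ) : W E J → ℤ
  | .inl u => if u.1 < 6 * K then x (.inl u) else t (u.1 - 6 * K) u.2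
  | .inr l => x (.inr l)

lemma ext_old {K : ℕ} {L : Set (ℕ × J)} (x : W E J → ℤ) (t : ℕ → E → ℤ) {u : W E J}
    (hu : Old K L u) : ext K x t u = x u := by
  rcases u with u | l
  · exact if_pos hu
  · rfl

lemma ext_new (K : ℕ) (x : W E J → ℤ) (t : ℕ → E → ℤ) (r : ℕ) (e : E) :
    ext K x t (.inl (6 * K + r, e)) = t r e := by
  simp [ext]

lemma old_succ {K : ℕ} {L : Set (ℕ × J)} {u : W E J} (hu : Old (K + 1) L u) :
    Old K L u ∨ ∃ r e, r ≤ 5 ∧ u = .inl (6 * K + r, e) := by
  rcases u with ⟨i, e⟩ | l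
  · by_cases h : i < 6 * K
    · exact Or.inl h
    · refine Or.inr ⟨i - 6 * K, e, ?_, ?_⟩
      · simp only [Old] at hu; omega
      · congr 2; omega
  · exact Or.inl hu

theorem Good.step' {lo hi : J → E} {K : ℕ} {L : Set (ℕ × J)} {c : E → ℕ} {p : E → ℤ}
    (h : Good lo hi K L c p) (N : ℤ) (hN : 0 ≤ N) (hp : ∀ e, 0 ≤ p e ∧ p e < N)
    (hinj : Function.Injective p) (d : E → ℕ)
    (hc : ∀ e, c e = 1 ∨ c e = 2 ∨ c e = 3)
    (hd : ∀ e, (c e = 2 → d e = 1 ∨ d e = 2) ∧ (c e ≠ 2 → d e = 2 ∨ d e = 3))
    (h2 : ∀ e f, p e < p f → c f = 2 → c e = 2) (h3 : ∀ e f, p e < p f → c e = 3 → c f = 3)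
    (hm : ∀ e f, p e < p f → d e ≤ d f) : Good lo hi (K + 1) L d p := by
  obtain ⟨x, y, z, M, h⟩ := h
  set a : E → ℤ := fun e => x (.inl (6 * K, e)) with ha
  set b : E → ℤ := fun e => y (.inl (6 * K, e)) with hb
  set g : E → ℤ := fun e => z (.inl (6 * K, e)) with hg
  have hok : ∀ e, Ok M N (c e) (d e) (p e) (a e) (b e) (g e) := fun e =>
    ⟨hc e, hd e, hp e, (h.bdt e).1, (h.bdt e).2.1, (h.bdt e).2.2⟩
  have hrel : ∀ e f, p e < p f →
      Rel (c e) (d e) (p e) (a e) (b e) (g e) (c f) (d f) (p f) (a f) (b f) (g f) := by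
    intro e f hef
    refine ⟨hef, h2 e f hef, h3 e f hef, hm e f hef, fun k1 k2 => ?_, fun k1 k2 => ?_,
      fun k1 k2 => ?_⟩
    · exact (h.ord e f (k1.trans k2.symm) hef).1 k1
    · exact (h.ord e f (k1.trans k2.symm) hef).2.1 k1
    · exact (h.ord e f (k1.trans k2.symm) hef).2.2 k1
  have htri : ∀ e f, e ≠ f → p e < p f ∨ p f < p e := fun e f hef =>
    lt_or_gt_of_ne (fun k => hef (hinj k))
  have h6 : 6 * (K + 1) = 6 * K + 6 := by ring
  refine ⟨ext K x (fun r e => tx M N r (c e) (d e) (p e) (a e)),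
    ext K y (fun r e => ty M N r (c e) (p e) (b e)),
    ext K z (fun r e => tz M N r (c e) (d e) (p e) (g e)), M + 5 * N + 2, ?_, ?_, ?_, ?_, ?_, ?_⟩
  · intro l hl
    exact (h.time l hl).trans (Nat.le_succ K)
  · intro u hu
    rcases old_succ hu with hu | ⟨r, e, hr, rfl⟩
    · rw [ext_old _ _ hu, ext_old _ _ hu, ext_old _ _ hu]
      have := h.bdo u hu
      omega
    · rw [ext_new, ext_new, ext_new]
      exact tab_bound (hok e) r
  · intro e
    rw [h6, ext_new, ext_new, ext_new]
    exact tab_bound (hok e) 6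
  · intro u v hu hv huv
    rcases old_succ hu with hu | ⟨r, e, hr, rfl⟩ <;>
      rcases old_succ hv with hv | ⟨s, f, hs, rfl⟩
    · rw [ext_old _ _ hu, ext_old _ _ hu, ext_old _ _ hu, ext_old _ _ hv, ext_old _ _ hv,
        ext_old _ _ hv]
      exact h.oo u v hu hv huv
    · rw [ext_old _ _ hu, ext_old _ _ hu, ext_old _ _ hu, ext_new, ext_new, ext_new]
      have hb := h.bdo u hu
      rcases Nat.eq_zero_or_pos s with rfl | hs0
      · rw [tab_old_zero (hok f) hb.1 hb.2.1 hb.2.2]
        exact h.ot u f hu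
      · rw [tab_old_new (hok f) s hs hs0 hb.1 hb.2.1 hb.2.2]
        rcases u with ⟨i, e⟩ | l
        · simp only [Old] at hu
          simp only [lt]
          omega
        · have := h.time l hu
          simp only [lt]
          omega
    · rw [ext_old _ _ hv, ext_old _ _ hv, ext_old _ _ hv, ext_new, ext_new, ext_new]
      have hb := h.bdo v hv
      refine iff_of_false ?_ (tab_new_old (hok e) r hb.1 hb.2.1 hb.2.2)
      rcases v with ⟨i, f⟩ | l
      · simp only [Old] at hv
        simp only [lt]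
        omega
      · simp [lt]
    · rw [ext_new, ext_new, ext_new, ext_new, ext_new, ext_new]
      by_cases hef : e = f
      · subst hef
        have hrs : r ≠ s := fun k => huv (by rw [k])
        rw [tab_same (hok e) r s hr hs hrs]
        simp only [lt, true_and]
        omega
      · refine iff_of_false ?_ ?_
        · simp only [lt, hef, false_and, false_or]
          omega
        · rcases htri e f hef with k | k
          · exact tab_lt (hok e) (hok f) (hrel e f k) r s hr hs
          · exact tab_gt (hok f) (hok e) (hrel f e k) s r hs hr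
  · intro u f hu
    rw [h6, ext_new, ext_new, ext_new]
    rcases old_succ hu with hu | ⟨r, e, hr, rfl⟩
    · rw [ext_old _ _ hu, ext_old _ _ hu, ext_old _ _ hu]
      have hb := h.bdo u hu
      refine iff_of_false ?_ (tab_old_top (hok f) hb.1 hb.2.1 hb.2.2)
      rcases u with ⟨i, e⟩ | l
      · simp only [Old] at hu
        simp only [lt]
        omega
      · have := h.time l hu
        simp only [lt]
        omega
    · rw [ext_new, ext_new, ext_new]
      by_cases hef : e = f
      · subst hef
        rw [tab_same_top (hok e) r hr]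
        simp only [lt, true_and]
        omega
      · refine iff_of_false ?_ ?_
        · simp only [lt, hef, false_and, false_or]
          omega
        · rcases htri e f hef with k | k
          · exact tab_lt_top (hok e) (hok f) (hrel e f k) r hr
          · exact tab_gt_top (hok f) (hok e) (hrel f e k) r hr
  · intro e f hef k
    rw [h6]
    simp only [ext_new]
    exact tab_order (hok e) (hok f) (hrel e f k) hef

theorem Good.step [Finite E] {lo hi : J → E} {K : ℕ} {L : Set (ℕ × J)} {c : E → ℕ} {p : E → ℤ}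
    (h : Good lo hi K L c p) (hinj : Function.Injective p) (d : E → ℕ)
    (hc : ∀ e, c e = 1 ∨ c e = 2 ∨ c e = 3)
    (hd : ∀ e, (c e = 2 → d e = 1 ∨ d e = 2) ∧ (c e ≠ 2 → d e = 2 ∨ d e = 3))
    (h2 : ∀ e f, p e < p f → c f = 2 → c e = 2) (h3 : ∀ e f, p e < p f → c e = 3 → c f = 3)
    (hm : ∀ e f, p e < p f → d e ≤ d f) : Good lo hi (K + 1) L d p := by
  obtain ⟨B, hB⟩ := (Set.finite_range (fun e => |p e|)).bddAbove
  have hB' : ∀ e, |p e| ≤ |B| := fun e => (hB ⟨e, rfl⟩).trans (le_abs_self B)
  have h1 : Good lo hi K L c (fun e => p e + |B|) := h.repos _ (fun e f _ k => by omega)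
  have := h1.step' (2 * |B| + 1) (by positivity)
    (fun e => by have := abs_le.1 (hB' e); omega)
    (fun e f k => hinj (by simpa using k)) d hc hd
    (fun e f k => h2 e f (by omega)) (fun e f k => h3 e f (by omega))
    (fun e f k => hm e f (by omega))
  exact this.repos _ (fun e f _ k => by omega)

/-- moving one strand to the front -/
theorem Good.front [Finite E] {lo hi : J → E} {K : ℕ} {L : Set (ℕ × J)} {p : E → ℤ}
    (h : Good lo hi K L (fun _ => 2) p) (hinj : Function.Injective p) (e0 : E) (q : E → ℤ)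
    (hq : Function.Injective q) (h1 : ∀ e, e ≠ e0 → q e0 < q e)
    (h2 : ∀ e f, e ≠ e0 → f ≠ e0 → (q e < q f ↔ p e < p f)) :
    Good lo hi (K + 4) L (fun _ => 2) q := by
  classical
  have s1 : Good lo hi (K + 1) L (fun _ => 1) p :=
    h.step hinj _ (by simp) (by simp) (by simp) (by simp) (by simp)
  have s2 : Good lo hi (K + 2) L (fun e => if p e ≤ p e0 then 2 else 3) p :=
    s1.step hinj _ (by simp) (fun e => by split_ifs <;> simp) (by simp) (by simp)
      (fun e f k => by split_ifs <;> omega)
  have s3 : Good lo hi (K + 3) L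
      (fun e => if p e < p e0 then 1 else if p e ≤ p e0 then 2 else 3) p :=
    s2.step hinj _ (fun e => by split_ifs <;> simp) (fun e => by split_ifs <;> omega)
      (fun e f k => by split_ifs <;> omega) (fun e f k => by split_ifs <;> omega)
      (fun e f k => by split_ifs <;> omega)
  have hne : ∀ e, e ≠ e0 ↔ p e ≠ p e0 := fun e => ⟨fun k k' => k (hinj k'), fun k k' => k (by rw [k'])⟩
  have s4 : Good lo hi (K + 3) L
      (fun e => if p e < p e0 then 1 else if p e ≤ p e0 then 2 else 3) q := by
    refine s3.repos q fun e f k1 k2 => ?_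
    by_cases he : e = e0
    · subst he
      have hf : f ≠ e := fun k => by rw [k] at k2; omega
      have := (hne f).1 hf
      split_ifs at k1 <;> omega
    · by_cases hf : f = e0
      · subst hf
        have := h1 e he
        omega
      · exact (h2 e f he hf).1 k2
  refine s4.step hq _ (fun e => by split_ifs <;> simp) (fun e => by simp) ?_ ?_ (by simp)
  · intro e f k k'
    have hf : f = e0 := by
      by_contra hf
      have := (hne f).1 hf
      split_ifs at k' <;> omega
    subst hf
    have he : e ≠ f := fun k2 => by rw [k2] at k; omega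
    have := h1 e he
    omega
  · intro e f k k'
    have he : e ≠ e0 := by
      rw [hne]
      split_ifs at k' <;> omega
    have hf : f ≠ e0 := by
      intro hf
      subst hf
      have := h1 e he
      omega
    have := (h2 e f he hf).1 k
    split_ifs at k' ⊢ <;> omega

/-- every order of the strands can be reached -/
theorem Good.reach [Finite E] {lo hi : J → E} {K : ℕ} {L : Set (ℕ × J)} {p : E → ℤ}
    (h : Good lo hi K L (fun _ => 2) p) (hinj : Function.Injective p) (q : E → ℤ)
    (hq : Function.Injective q) : ∃ K', K < K' ∧ Good lo hi K' L (fun _ => 2) q := by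
  classical
  have := Fintype.ofFinite E
  have key : ∀ s : Finset E, ∃ K' p', K < K' ∧ Function.Injective p' ∧
      Good lo hi K' L (fun _ => 2) p' ∧ ∀ e ∈ s, ∀ f ∈ s, q e < q f → p' e < p' f := by
    intro s
    induction s using Finset.induction_on_min_value q with
    | empty =>
      exact ⟨K + 1, p, Nat.lt_succ_self K, hinj,
        h.step hinj _ (by simp) (by simp) (by simp) (by simp) (by simp), by simp⟩
    | insert a s has hmin ih =>
      obtain ⟨K', p', hK, hp', hg, hs⟩ := ih
      obtain ⟨B, hB⟩ := (Set.finite_range p').bddBelow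
      have hB' : ∀ e, B ≤ p' e := fun e => hB ⟨e, rfl⟩
      have hup : ∀ e, e ≠ a → Function.update p' a (B - 1) e = p' e := fun e he =>
        Function.update_of_ne he _ _
      have hupa : Function.update p' a (B - 1) a = B - 1 := Function.update_self _ _ _
      have hinj' : Function.Injective (Function.update p' a (B - 1)) := by
        intro e f k
        by_cases he : e = a <;> by_cases hf : f = a
        · rw [he, hf]
        · subst he; rw [hupa, hup f hf] at k; have := hB' f; omega
        · subst hf; rw [hupa, hup e he] at k; have := hB' e; omega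
        · rw [hup e he, hup f hf] at k; exact hp' k
      refine ⟨K' + 4, Function.update p' a (B - 1), by omega, hinj',
        hg.front hp' a _ hinj' (fun e he => ?_) (fun e f he hf => ?_), ?_⟩
      · rw [hupa, hup e he]; have := hB' e; omega
      · rw [hup e he, hup f hf]
      · intro e he f hf k
        rw [Finset.mem_insert] at he hf
        have hfa : f ≠ a := by
          intro hfa
          subst hfa
          rcases he with he | he
          · subst he; omega
          · have := hmin e he; omega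
        have hf' := hf.resolve_left hfa
        by_cases hea : e = a
        · subst hea; rw [hupa, hup f hfa]; have := hB' f; omega
        · rw [hup e hea, hup f hfa]
          exact hs e (he.resolve_left hea) f hf' k
  obtain ⟨K', p', hK, _, hg, hs⟩ := key Finset.univ
  exact ⟨K', hK, hg.repos q fun e f _ k => hs e (Finset.mem_univ e) f (Finset.mem_univ f) k⟩

theorem good_zero [Finite E] (lo hi : J → E) (p : E → ℤ) :
    Good lo hi 0 ∅ (fun _ => 2) p := by
  obtain ⟨B, hB⟩ := (Set.finite_range (fun e => |p e|)).bddAbove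
  have hB' : ∀ e, |p e| ≤ |B| := fun e => (hB ⟨e, rfl⟩).trans (le_abs_self B)
  have hold : ∀ u : W E J, ¬ Old 0 ∅ u := by
    rintro (u | l) <;> simp [Old]
  refine ⟨Sum.elim (fun u => -p u.2) 0, 0, Sum.elim (fun u => p u.2) 0, |B| + 1, by simp,
    fun u hu => (hold u hu).elim, fun e => ?_, fun u _ hu => (hold u hu).elim,
    fun u _ hu => (hold u hu).elim, fun e f _ k => ?_⟩
  · have := abs_le.1 (hB' e)
    have := abs_nonneg B
    simp only [Sum.elim_inl, Pi.zero_apply]
    omega
  · simp only [Sum.elim_inl]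
    omega

end Pool.Agent.H290Z.Dim3
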