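import Mathlib

set_option autoImplicit false

namespace Pool.Agent.H290Z.Dim3

/-- first coordinate of the layer `r` of a new stage, for old class `c`, new class `d`,
position `p`, old coordinate `o` -/
def tx (M N : ℤ) (r c d : ℕ) (p o : ℤ) : ℤ :=
  if c = 1 then
    (if r ≤ 2 then M + 4 * N + 1 - p else if r ≤ 4 then M + N + 1 + p
      else if d = 2 then -M - N - 1 - p else -M - 2 * N - 1 + p)
  else if c = 2 then
    (if r = 0 then o else if r ≤ 3 then -M - N + p else M + N - p)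
  else
    (if r ≤ 1 then o else if r ≤ 4 then M + N + 1 - p
      else if d = 2 then -M - N - 1 - p else -M - 2 * N - 1 + p)

/-- second coordinate -/
def ty (M N : ℤ) (r c : ℕ) (p o : ℤ) : ℤ :=
  if c = 1 then (if r ≤ 1 then o else M + N + 1 - p)
  else if c = 2 then (if r ≤ 2 then M + 4 * N + 1 - p else M + 2 * N + 1 + p)
  else (if r = 0 then o else if r ≤ 3 then -M - N + p else M + N + 1 - p)

/-- third coordinate -/
def tz (M N : ℤ) (r c d : ℕ) (p o : ℤ) : ℤ :=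
  if c = 1 then (if r = 0 then o else if r ≤ 3 then -M - N + p else M + N + 1 + p)
  else if c = 2 then
    (if r ≤ 1 then o else if r ≤ 4 then M + N - p
      else if d = 1 then -M - N - 1 - p else -M - 2 * N - 1 + p)
  else (if r ≤ 2 then M + 4 * N + 1 - p else M + N + 1 + p)

/-- data of one strand -/
structure Ok (M N : ℤ) (c d : ℕ) (p a b e : ℤ) : Prop where
  hc : c = 1 ∨ c = 2 ∨ c = 3
  hd : (c = 2 → d = 1 ∨ d = 2) ∧ (c ≠ 2 → d = 2 ∨ d = 3)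
  hp : 0 ≤ p ∧ p < N
  ha : -M < a ∧ a < M
  hb : -M < b ∧ b < M
  he : -M < e ∧ e < M

/-- relative position of two strands, the first one being earlier -/
structure Rel (c d : ℕ) (p a b e : ℤ) (c' d' : ℕ) (p' a' b' e' : ℤ) : Prop where
  hp : p < p'
  h2 : c' = 2 → c = 2
  h3 : c = 3 → c' = 3
  hd : d ≤ d'
  o1 : c = 1 → c' = 1 → b < b' ∧ e' < e
  o2 : c = 2 → c' = 2 → e < e' ∧ a' < a
  o3 : c = 3 → c' = 3 → a < a' ∧ b' < b

theorem tab_bound {M N : ℤ} {c d : ℕ} {p a b e : ℤ} (h : Ok M N c d p a b e) (r : ℕ) :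
    (-(M + 5 * N + 2) < tx M N r c d p a ∧ tx M N r c d p a < M + 5 * N + 2) ∧
    (-(M + 5 * N + 2) < ty M N r c p b ∧ ty M N r c p b < M + 5 * N + 2) ∧
    (-(M + 5 * N + 2) < tz M N r c d p e ∧ tz M N r c d p e < M + 5 * N + 2) := by
  obtain ⟨hc, hd, hp, ha, hb, he⟩ := h
  unfold tx ty tz
  refine ⟨?_, ?_, ?_⟩ <;> split_ifs <;> omega

theorem tab_same {M N : ℤ} {c d : ℕ} {p a b e : ℤ} (h : Ok M N c d p a b e) (r s : ℕ)
    (hr : r ≤ 5) (hs : s ≤ 5) (hrs : r ≠ s) :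
    (tx M N r c d p a ≤ tx M N s c d p a ∧ ty M N r c p b ≤ ty M N s c p b ∧
      tz M N r c d p e ≤ tz M N s c d p e) ↔ (r % 2 = 1 ∧ (s = r + 1 ∨ r = s + 1)) := by
  obtain ⟨hc, hd, hp, ha, hb, he⟩ := h
  rcases hc with rfl | rfl | rfl <;> interval_cases r <;> interval_cases s <;>
    simp [tx, ty, tz] at * <;> (try split_ifs) <;> omega

theorem tab_same_top {M N : ℤ} {c d : ℕ} {p a b e : ℤ} (h : Ok M N c d p a b e) (r : ℕ)
    (hr : r ≤ 5) :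
    ((d ≠ 1 → tx M N r c d p a ≤ tx M N 6 c d p a) ∧ (d ≠ 2 → ty M N r c p b ≤ ty M N 6 c p b) ∧
      (d ≠ 3 → tz M N r c d p e ≤ tz M N 6 c d p e)) ↔ r = 5 := by
  obtain ⟨hc, hd, hp, ha, hb, he⟩ := h
  rcases hc with rfl | rfl | rfl <;> interval_cases r <;>
    simp [tx, ty, tz] at * <;> (try split_ifs) <;> omega

theorem tab_old_new {M N : ℤ} {c d : ℕ} {p a b e : ℤ} (h : Ok M N c d p a b e) (s : ℕ)
    (hs : s ≤ 5) (hs0 : 0 < s) {u v w : ℤ} (hu : -M < u ∧ u < M) (hv : -M < v ∧ v < M)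
    (hw : -M < w ∧ w < M) :
    (u ≤ tx M N s c d p a ∧ v ≤ ty M N s c p b ∧ w ≤ tz M N s c d p e) ↔ s = 4 := by
  obtain ⟨hc, hd, hp, ha, hb, he⟩ := h
  rcases hc with rfl | rfl | rfl <;> interval_cases s <;>
    simp [tx, ty, tz] at * <;> (try split_ifs) <;> omega

theorem tab_old_zero {M N : ℤ} {c d : ℕ} {p a b e : ℤ} (h : Ok M N c d p a b e)
    {u v w : ℤ} (hu : -M < u ∧ u < M) (hv : -M < v ∧ v < M) (hw : -M < w ∧ w < M) :
    (u ≤ tx M N 0 c d p a ∧ v ≤ ty M N 0 c p b ∧ w ≤ tz M N 0 c d p e) ↔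
      ((c ≠ 1 → u ≤ a) ∧ (c ≠ 2 → v ≤ b) ∧ (c ≠ 3 → w ≤ e)) := by
  obtain ⟨hc, hd, hp, ha, hb, he⟩ := h
  rcases hc with rfl | rfl | rfl <;> simp [tx, ty, tz] at * <;> omega

theorem tab_old_top {M N : ℤ} {c d : ℕ} {p a b e : ℤ} (h : Ok M N c d p a b e)
    {u v w : ℤ} (hu : -M < u ∧ u < M) (hv : -M < v ∧ v < M) (hw : -M < w ∧ w < M) :
    ¬ ((d ≠ 1 → u ≤ tx M N 6 c d p a) ∧ (d ≠ 2 → v ≤ ty M N 6 c p b) ∧
      (d ≠ 3 → w ≤ tz M N 6 c d p e)) := by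
  obtain ⟨hc, hd, hp, ha, hb, he⟩ := h
  rcases hc with rfl | rfl | rfl <;> simp [tx, ty, tz] at * <;> (try split_ifs) <;> omega

theorem tab_new_old {M N : ℤ} {c d : ℕ} {p a b e : ℤ} (h : Ok M N c d p a b e) (r : ℕ)
    {u v w : ℤ} (hu : -M < u ∧ u < M) (hv : -M < v ∧ v < M) (hw : -M < w ∧ w < M) :
    ¬ (tx M N r c d p a ≤ u ∧ ty M N r c p b ≤ v ∧ tz M N r c d p e ≤ w) := by
  obtain ⟨hc, hd, hp, ha, hb, he⟩ := h
  unfold tx ty tz
  split_ifs <;> omega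

theorem tab_lt {M N : ℤ} {c d : ℕ} {p a b e : ℤ} {c' d' : ℕ} {p' a' b' e' : ℤ}
    (h : Ok M N c d p a b e) (h' : Ok M N c' d' p' a' b' e')
    (hR : Rel c d p a b e c' d' p' a' b' e') (r s : ℕ) (hr : r ≤ 5) (hs : s ≤ 5) :
    ¬ (tx M N r c d p a ≤ tx M N s c' d' p' a' ∧ ty M N r c p b ≤ ty M N s c' p' b' ∧
      tz M N r c d p e ≤ tz M N s c' d' p' e') := by
  obtain ⟨hc, hd, hp, ha, hb, he⟩ := h
  obtain ⟨hc', hd', hp', ha', hb', he'⟩ := h'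
  obtain ⟨k1, k2, k3, k4, k5, k6, k7⟩ := hR
  rcases hc with rfl | rfl | rfl <;> rcases hc' with rfl | rfl | rfl <;>
    simp at hd hd' k2 k3 k5 k6 k7 <;>
    interval_cases r <;> interval_cases s <;>
    simp [tx, ty, tz] <;> (try split_ifs) <;> omega

theorem tab_gt {M N : ℤ} {c d : ℕ} {p a b e : ℤ} {c' d' : ℕ} {p' a' b' e' : ℤ}
    (h : Ok M N c d p a b e) (h' : Ok M N c' d' p' a' b' e')
    (hR : Rel c d p a b e c' d' p' a' b' e') (r s : ℕ) (hr : r ≤ 5) (hs : s ≤ 5) :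
    ¬ (tx M N s c' d' p' a' ≤ tx M N r c d p a ∧ ty M N s c' p' b' ≤ ty M N r c p b ∧
      tz M N s c' d' p' e' ≤ tz M N r c d p e) := by
  obtain ⟨hc, hd, hp, ha, hb, he⟩ := h
  obtain ⟨hc', hd', hp', ha', hb', he'⟩ := h'
  obtain ⟨k1, k2, k3, k4, k5, k6, k7⟩ := hR
  rcases hc with rfl | rfl | rfl <;> rcases hc' with rfl | rfl | rfl <;>
    simp at hd hd' k2 k3 k5 k6 k7 <;>
    interval_cases r <;> interval_cases s <;>
    simp [tx, ty, tz] <;> (try split_ifs) <;> omega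

theorem tab_lt_top {M N : ℤ} {c d : ℕ} {p a b e : ℤ} {c' d' : ℕ} {p' a' b' e' : ℤ}
    (h : Ok M N c d p a b e) (h' : Ok M N c' d' p' a' b' e')
    (hR : Rel c d p a b e c' d' p' a' b' e') (r : ℕ) (hr : r ≤ 5) :
    ¬ ((d' ≠ 1 → tx M N r c d p a ≤ tx M N 6 c' d' p' a') ∧
      (d' ≠ 2 → ty M N r c p b ≤ ty M N 6 c' p' b') ∧
      (d' ≠ 3 → tz M N r c d p e ≤ tz M N 6 c' d' p' e')) := by
  obtain ⟨hc, hd, hp, ha, hb, he⟩ := h
  obtain ⟨hc', hd', hp', ha', hb', he'⟩ := h'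
  obtain ⟨k1, k2, k3, k4, k5, k6, k7⟩ := hR
  rcases hc with rfl | rfl | rfl <;> rcases hc' with rfl | rfl | rfl <;>
    simp at hd hd' k2 k3 k5 k6 k7 <;>
    interval_cases r <;>
    simp [tx, ty, tz] <;> (try split_ifs) <;> omega

theorem tab_gt_top {M N : ℤ} {c d : ℕ} {p a b e : ℤ} {c' d' : ℕ} {p' a' b' e' : ℤ}
    (h : Ok M N c d p a b e) (h' : Ok M N c' d' p' a' b' e')
    (hR : Rel c d p a b e c' d' p' a' b' e') (s : ℕ) (hs : s ≤ 5) :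
    ¬ ((d ≠ 1 → tx M N s c' d' p' a' ≤ tx M N 6 c d p a) ∧
      (d ≠ 2 → ty M N s c' p' b' ≤ ty M N 6 c p b) ∧
      (d ≠ 3 → tz M N s c' d' p' e' ≤ tz M N 6 c d p e)) := by
  obtain ⟨hc, hd, hp, ha, hb, he⟩ := h
  obtain ⟨hc', hd', hp', ha', hb', he'⟩ := h'
  obtain ⟨k1, k2, k3, k4, k5, k6, k7⟩ := hR
  rcases hc with rfl | rfl | rfl <;> rcases hc' with rfl | rfl | rfl <;>
    simp at hd hd' k2 k3 k5 k6 k7 <;>
    interval_cases s <;>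
    simp [tx, ty, tz] <;> (try split_ifs) <;> omega

theorem tab_order {M N : ℤ} {c d : ℕ} {p a b e : ℤ} {c' d' : ℕ} {p' a' b' e' : ℤ}
    (h : Ok M N c d p a b e) (h' : Ok M N c' d' p' a' b' e')
    (hR : Rel c d p a b e c' d' p' a' b' e') (hdd : d = d') :
    (d = 1 → ty M N 6 c p b < ty M N 6 c' p' b' ∧ tz M N 6 c' d' p' e' < tz M N 6 c d p e) ∧
    (d = 2 → tz M N 6 c d p e < tz M N 6 c' d' p' e' ∧ tx M N 6 c' d' p' a' < tx M N 6 c d p a) ∧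
    (d = 3 → tx M N 6 c d p a < tx M N 6 c' d' p' a' ∧ ty M N 6 c' p' b' < ty M N 6 c p b) := by
  obtain ⟨hc, hd, hp, ha, hb, he⟩ := h
  obtain ⟨hc', hd', hp', ha', hb', he'⟩ := h'
  obtain ⟨k1, k2, k3, k4, k5, k6, k7⟩ := hR
  subst hdd
  rcases hc with rfl | rfl | rfl <;> rcases hc' with rfl | rfl | rfl <;>
    simp at hd hd' k2 k3 k5 k6 k7 <;>
    simp [tx, ty, tz] <;> (try split_ifs) <;> omega

end Pool.Agent.H290Z.Dim3
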